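import Mathlib
import Pool.Agent.Lib.MP_95a9c1_lc.Defs
import Pool.Agent.Lib.MP_95a9c1_lc.Final

/-!
A d.c.e. degree that is a degree of categoricity but not a degree of decidable categoricity.
-/

namespace Pool.Agent.Results.MP_95a9c1_lc.DceDegreeNotDecidable

open Pool.Agent.Lib.MP95a9c1

/-- There are computably enumerable sets `A` and `B` such that the Turing degree of `A \ B` is a
degree of categoricity but not a degree of decidable categoricity. -/
theorem result : ∃ A B : Set ℕ, REPred (fun x => x ∈ A) ∧ REPred (fun x => x ∈ B) ∧
    DegCat (A \ B) ∧ ¬ DegDecCat (A \ B) := final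

end Pool.Agent.Results.MP_95a9c1_lc.DceDegreeNotDecidable
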